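import Pool.Agent.Odp2.G.Refl

/-!
# Approximation of formal solutions by elements of a normal domain (Artin-Rees)
-/

open MvPolynomial

namespace Pool.Agent.Odp2

section approx

theorem approx_mem_smul_top {R ι : Type*} [CommRing R] [Fintype ι] (I : Ideal R) (f : ι → R) :
    f ∈ I • (⊤ : Submodule R (ι → R)) ↔ ∀ i, f i ∈ I := by
  classical
  constructor
  · intro hf i
    induction hf using Submodule.smul_induction_on' with
    | smul r hr x _ => exact Ideal.mul_mem_right _ _ hr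
    | add x _ y _ hx hy => exact Ideal.add_mem _ hx hy
  · intro hf
    have h : f = ∑ i, f i • (Pi.single i 1 : ι → R) := by
      ext j
      simp [Finset.sum_apply, Pi.single_apply]
    rw [h]
    exact Submodule.sum_mem _ fun i _ => Submodule.smul_mem_smul (hf i) trivial

/-- Artin-Rees for a system of linear equations -/
theorem approx_artinRees {P : Type*} [CommRing P] [IsNoetherianRing P] {k L : ℕ}
    (I : Ideal P) (A : Fin L → Fin k → P) :
    ∃ c : ℕ, ∀ m, ∀ p : Fin k → P, (∀ l, ∑ j, A l j * p j ∈ I ^ (m + c)) →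
      ∃ r : Fin k → P, (∀ j, r j ∈ I ^ m) ∧ ∀ l, ∑ j, A l j * r j = ∑ j, A l j * p j := by
  classical
  let f : (Fin k → P) →ₗ[P] (Fin L → P) := LinearMap.pi fun l => Fintype.linearCombination P (A l)
  have hf : ∀ p l, f p l = ∑ j, A l j * p j := by
    intro p l
    change ∑ j, p j • A l j = _
    exact Finset.sum_congr rfl fun j _ => by rw [smul_eq_mul, mul_comm]
  obtain ⟨c, hc⟩ := Ideal.exists_pow_inf_eq_pow_smul I (LinearMap.range f)
  refine ⟨c, fun m p hp => ?_⟩
  have h1 : f p ∈ I ^ (m + c) • (⊤ : Submodule P (Fin L → P)) ⊓ LinearMap.range f := by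
    refine ⟨(approx_mem_smul_top _ _).mpr fun l => ?_, ⟨p, rfl⟩⟩
    rw [hf]
    exact hp l
  rw [hc (m + c) (Nat.le_add_left _ _), Nat.add_sub_cancel] at h1
  have h2 : f p ∈ I ^ m • LinearMap.range f := Submodule.smul_mono le_rfl inf_le_right h1
  rw [LinearMap.range_eq_map, ← Submodule.map_smul''] at h2
  obtain ⟨r, hr, hrf⟩ := h2
  rw [SetLike.mem_coe, approx_mem_smul_top] at hr
  refine ⟨r, hr, fun l => ?_⟩
  rw [← hf, ← hf, hrf]

variable {n : ℕ} {B : Type*} [CommRing B] [IsDomain B] [IsIntegrallyClosed B]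
  [Algebra (MvPolynomial (Fin n) ℂ) B] [FaithfulSMul (MvPolynomial (Fin n) ℂ) B]
  [Module.Finite (MvPolynomial (Fin n) ℂ) B]

/-- a linear choice of an approximate inverse of `b ↦ (φ_j b)_j` -/
theorem approx_linear {k L s : ℕ} (φ : Fin k → B →ₗ[MvPolynomial (Fin n) ℂ] MvPolynomial (Fin n) ℂ)
    (hφ : Submodule.span (MvPolynomial (Fin n) ℂ) (Set.range φ) = ⊤) (e : Fin s → B)
    (he : Submodule.span (MvPolynomial (Fin n) ℂ) (Set.range e) = ⊤)
    (A : Fin L → Fin k → MvPolynomial (Fin n) ℂ)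
    (hA : ∀ a : Fin k → MvPolynomial (Fin n) ℂ, ∑ j, a j • φ j = 0 →
      a ∈ Submodule.span (MvPolynomial (Fin n) ℂ) (Set.range A)) :
    ∃ c : ℕ, ∀ M, ∃ σ : (Fin k → MvPolynomial (Fin n) ℂ) →ₗ[ℂ] (Fin s → MvPolynomial (Fin n) ℂ),
      ∀ p : Fin k → MvPolynomial (Fin n) ℂ,
        (∀ l, ∑ j, A l j * p j ∈ idealOfVars (Fin n) ℂ ^ (M + c)) →
        ∀ j, φ j (∑ i, σ p i • e i) - p j ∈ idealOfVars (Fin n) ℂ ^ M := by
  classical
  obtain ⟨c, hc⟩ := approx_artinRees (idealOfVars (Fin n) ℂ) A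
  refine ⟨c, fun M => ?_⟩
  -- the domain of the map
  let V : Submodule ℂ (Fin k → MvPolynomial (Fin n) ℂ) :=
    { carrier := {p | ∀ l, ∑ j, A l j * p j ∈ idealOfVars (Fin n) ℂ ^ (M + c)}
      add_mem' := by
        intro p q hp hq l
        simp only [Pi.add_apply, mul_add, Finset.sum_add_distrib]
        exact Ideal.add_mem _ (hp l) (hq l)
      zero_mem' := by
        intro l
        simp
      smul_mem' := by
        intro a p hp l
        have h1 : ∑ j, A l j * (a • p) j = C a * ∑ j, A l j * p j := by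
          rw [Finset.mul_sum]
          refine Finset.sum_congr rfl fun j _ => ?_
          rw [Pi.smul_apply, smul_eq_C_mul]
          ring
        rw [h1]
        exact Ideal.mul_mem_left _ _ (hp l) }
  -- the pairs
  let W : Submodule ℂ ((Fin k → MvPolynomial (Fin n) ℂ) × (Fin s → MvPolynomial (Fin n) ℂ)) :=
    { carrier := {x | x.1 ∈ V ∧ ∀ j, φ j (∑ i, x.2 i • e i) - x.1 j ∈
        idealOfVars (Fin n) ℂ ^ M}
      add_mem' := by
        intro x y hx hy
        refine ⟨V.add_mem hx.1 hy.1, fun j => ?_⟩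
        have h1 : φ j (∑ i, (x + y).2 i • e i) - (x + y).1 j =
            (φ j (∑ i, x.2 i • e i) - x.1 j) + (φ j (∑ i, y.2 i • e i) - y.1 j) := by
          simp only [Prod.snd_add, Prod.fst_add, Pi.add_apply, add_smul, Finset.sum_add_distrib,
            map_add]
          ring
        rw [h1]
        exact Ideal.add_mem _ (hx.2 j) (hy.2 j)
      zero_mem' := by
        refine ⟨V.zero_mem, fun j => ?_⟩
        simp
      smul_mem' := by
        intro a x hx
        refine ⟨V.smul_mem a hx.1, fun j => ?_⟩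
        have h1 : φ j (∑ i, (a • x).2 i • e i) - (a • x).1 j =
            C a * (φ j (∑ i, x.2 i • e i) - x.1 j) := by
          have h2 : ∑ i, (a • x).2 i • e i = (C a : MvPolynomial (Fin n) ℂ) • ∑ i, x.2 i • e i := by
            rw [Finset.smul_sum]
            refine Finset.sum_congr rfl fun i _ => ?_
            rw [Prod.smul_snd, Pi.smul_apply, smul_eq_C_mul, mul_smul]
          rw [h2, map_smul, Prod.smul_fst, Pi.smul_apply, smul_eq_C_mul, smul_eq_mul]
          ring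
        rw [h1]
        exact Ideal.mul_mem_left _ _ (hx.2 j) }
  let π : W →ₗ[ℂ] V := ((LinearMap.fst ℂ _ _).comp W.subtype).codRestrict V fun x => x.2.1
  have hπ : Function.Surjective π := by
    rintro ⟨p, hp⟩
    obtain ⟨r, hr, hrA⟩ := hc M p fun l => hp l
    obtain ⟨b, hb⟩ := refl_exists_of_syzygy φ hφ (fun j => p j - r j) (by
      intro a ha
      have h1 : Submodule.span (MvPolynomial (Fin n) ℂ) (Set.range A) ≤
          LinearMap.ker (Fintype.linearCombination (MvPolynomial (Fin n) ℂ) fun j => p j - r j) := by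
        rw [Submodule.span_le]
        rintro _ ⟨l, rfl⟩
        have h2 := hrA l
        rw [SetLike.mem_coe, LinearMap.mem_ker, Fintype.linearCombination_apply]
        simp only [smul_eq_mul, mul_sub, Finset.sum_sub_distrib, h2, sub_self]
      have h3 := h1 (hA a ha)
      rwa [LinearMap.mem_ker, Fintype.linearCombination_apply] at h3)
    have hbe : b ∈ Submodule.span (MvPolynomial (Fin n) ℂ) (Set.range e) := by
      rw [he]
      trivial
    rw [← Fintype.range_linearCombination (MvPolynomial (Fin n) ℂ) e] at hbe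
    obtain ⟨cb, hcb⟩ := hbe
    rw [Fintype.linearCombination_apply] at hcb
    refine ⟨⟨(p, cb), hp, fun j => ?_⟩, rfl⟩
    change φ j (∑ i, cb i • e i) - p j ∈ _
    rw [hcb, hb, sub_sub_cancel_left]
    exact Ideal.neg_mem_iff _ |>.mpr (hr j)
  obtain ⟨τ, hτ⟩ := π.exists_rightInverse_of_surjective (LinearMap.range_eq_top.mpr hπ)
  obtain ⟨σ, hσ⟩ := LinearMap.exists_extend (((LinearMap.snd ℂ (Fin k → MvPolynomial (Fin n) ℂ) (Fin s → MvPolynomial (Fin n) ℂ)).comp
    W.subtype).comp τ)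
  refine ⟨σ, fun p hp j => ?_⟩
  have hpV : p ∈ V := hp
  have h1 : σ p = (τ ⟨p, hpV⟩ : (Fin k → MvPolynomial (Fin n) ℂ) × (Fin s → MvPolynomial (Fin n) ℂ)).2 := by
    have h2 := LinearMap.congr_fun hσ ⟨p, hpV⟩
    exact h2
  have h3 : (τ ⟨p, hpV⟩ : (Fin k → MvPolynomial (Fin n) ℂ) × (Fin s → MvPolynomial (Fin n) ℂ)).1 = p := by
    have h2 := LinearMap.congr_fun hτ ⟨p, hpV⟩
    exact congrArg Subtype.val h2
  have h4 := (τ ⟨p, hpV⟩).2.2 j
  rw [h3, ← h1] at h4
  exact h4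

/-- generators of the syzygies -/
theorem approx_exists_syz {P M : Type*} [CommRing P] [IsNoetherianRing P] [AddCommGroup M]
    [Module P M] {k : ℕ} (φ : Fin k → M) : ∃ (L : ℕ) (A : Fin L → Fin k → P),
      (∀ l, ∑ j, A l j • φ j = 0) ∧ ∀ a : Fin k → P, ∑ j, a j • φ j = 0 →
        a ∈ Submodule.span P (Set.range A) := by
  classical
  let K : Submodule P (Fin k → P) := LinearMap.ker (Fintype.linearCombination P φ)
  obtain ⟨L, A, hA⟩ := Submodule.fg_iff_exists_fin_generating_family.mp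
    (IsNoetherian.noetherian K)
  refine ⟨L, A, fun l => ?_, fun a ha => ?_⟩
  · have h1 : A l ∈ K := by
      rw [← hA]
      exact Submodule.subset_span ⟨l, rfl⟩
    rwa [LinearMap.mem_ker, Fintype.linearCombination_apply] at h1
  · rw [hA, LinearMap.mem_ker, Fintype.linearCombination_apply]
    exact ha

/-- finite generators -/
theorem approx_exists_gen (P M : Type*) [CommRing P] [AddCommGroup M] [Module P M]
    [Module.Finite P M] : ∃ (s : ℕ) (e : Fin s → M), Submodule.span P (Set.range e) = ⊤ :=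
  Submodule.fg_iff_exists_fin_generating_family.mp Module.Finite.fg_top

/-- a linear map is bounded on the tuples of polynomials of degree `< T` -/
theorem approx_lin_bound {n k : ℕ} (T : ℕ)
    (τ : (Fin k → MvPolynomial (Fin n) ℂ) →ₗ[ℂ] MvPolynomial (Fin n) ℂ) :
    ∃ (C : ℝ) (Λ : Finset (Fin n →₀ ℕ)), 0 ≤ C ∧ ∀ (p : Fin k → MvPolynomial (Fin n) ℂ) (ε : ℝ),
      0 ≤ ε → (∀ j, (p j).totalDegree < T) → (∀ j m, ‖coeff m (p j)‖ ≤ ε) →
      (τ p).support ⊆ Λ ∧ ∀ m, ‖coeff m (τ p)‖ ≤ C * ε := by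
  classical
  let S : Finset (Fin n →₀ ℕ) :=
    (Finset.range T).biUnion fun d => Finset.finsuppAntidiag Finset.univ d
  let E : Fin k → (Fin n →₀ ℕ) → (Fin k → MvPolynomial (Fin n) ℂ) :=
    fun j m => Pi.single j (monomial m 1)
  let Λ : Finset (Fin n →₀ ℕ) := Finset.univ.biUnion fun j => S.biUnion fun m => (τ (E j m)).support
  refine ⟨∑ j, ∑ m ∈ S, ∑ m' ∈ Λ, ‖coeff m' (τ (E j m))‖, Λ, by positivity, ?_⟩
  intro p ε hε hT hp
  have hS : ∀ j, (p j).support ⊆ S := by
    intro j m hm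
    have h1 : m.degree < T := by
      refine lt_of_le_of_lt ?_ (hT j)
      exact le_totalDegree hm
    simp only [S, Finset.mem_biUnion, Finset.mem_range, Finset.mem_finsuppAntidiag]
    exact ⟨m.degree, h1, by simp [Finsupp.degree_eq_sum], Finset.subset_univ _⟩
  have h1 : p = ∑ j, ∑ m ∈ S, coeff m (p j) • E j m := by
    funext i
    rw [Finset.sum_apply]
    have h2 : ∀ j, (∑ m ∈ S, coeff m (p j) • E j m) i =
        if i = j then ∑ m ∈ S, monomial m (coeff m (p j)) else 0 := by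
      intro j
      rw [Finset.sum_apply]
      split_ifs with h
      · subst h
        refine Finset.sum_congr rfl fun m _ => ?_
        simp [E, smul_monomial]
      · refine Finset.sum_eq_zero fun m _ => ?_
        simp [E, Pi.single_apply, h]
    rw [Finset.sum_congr rfl fun j _ => h2 j]
    rw [Finset.sum_ite_eq, if_pos (Finset.mem_univ _)]
    conv_lhs => rw [as_sum (p i)]
    refine Finset.sum_subset (hS i) fun m _ hm => ?_
    rw [notMem_support_iff.mp hm, monomial_zero]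
  have h3 : τ p = ∑ j, ∑ m ∈ S, coeff m (p j) • τ (E j m) := by
    conv_lhs => rw [h1]
    simp only [map_sum, map_smul]
  have hΛ : ∀ j, ∀ m ∈ S, ∀ m', m' ∉ Λ → coeff m' (τ (E j m)) = 0 := by
    intro j m hm m' hm'
    by_contra h
    refine hm' ?_
    simp only [Λ, Finset.mem_biUnion]
    exact ⟨j, Finset.mem_univ _, m, hm, mem_support_iff.mpr h⟩
  have h4 : ∀ m', coeff m' (τ p) = ∑ j, ∑ m ∈ S, coeff m (p j) * coeff m' (τ (E j m)) := by
    intro m'
    rw [h3, coeff_sum]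
    refine Finset.sum_congr rfl fun j _ => ?_
    rw [coeff_sum]
    refine Finset.sum_congr rfl fun m _ => ?_
    rw [coeff_smul, smul_eq_mul]
  have h5 : ∀ m', m' ∉ Λ → coeff m' (τ p) = 0 := by
    intro m' hm'
    rw [h4]
    refine Finset.sum_eq_zero fun j _ => Finset.sum_eq_zero fun m hm => ?_
    rw [hΛ j m hm m' hm', mul_zero]
  refine ⟨fun m' hm' => ?_, fun m' => ?_⟩
  · by_contra h
    exact (mem_support_iff.mp hm') (h5 m' h)
  · by_cases hm' : m' ∈ Λ
    · rw [h4, Finset.sum_mul]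
      refine (norm_sum_le _ _).trans (Finset.sum_le_sum fun j _ => ?_)
      rw [Finset.sum_mul]
      refine (norm_sum_le _ _).trans (Finset.sum_le_sum fun m hm => ?_)
      rw [norm_mul, mul_comm]
      refine mul_le_mul ?_ (hp j m) (norm_nonneg _) (Finset.sum_nonneg fun _ _ => norm_nonneg _)
      exact Finset.single_le_sum (f := fun m' => ‖coeff m' (τ (E j m))‖)
        (fun _ _ => norm_nonneg _) hm'
    · rw [h5 m' hm', norm_zero]
      positivity

/-- a polynomial in the `M`-th power of the maximal ideal -/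
theorem approx_eval_le {n M : ℕ} {q : MvPolynomial (Fin n) ℂ} {Λ : Finset (Fin n →₀ ℕ)} {ε : ℝ}
    (hq : q ∈ idealOfVars (Fin n) ℂ ^ M) (hΛ : q.support ⊆ Λ) (hε : ∀ m, ‖coeff m q‖ ≤ ε)
    {w : Fin n → ℂ} (hw : ‖w‖ ≤ 1) : ‖eval w q‖ ≤ Λ.card * ε * ‖w‖ ^ M := by
  have hε0 : 0 ≤ ε := (norm_nonneg _).trans (hε 0)
  rw [mem_pow_idealOfVars_iff] at hq
  rw [eval_eq]
  refine (norm_sum_le _ _).trans ?_
  have h1 : ∀ m ∈ q.support, ‖coeff m q * ∏ i ∈ m.support, w i ^ m i‖ ≤ ε * ‖w‖ ^ M := by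
    intro m hm
    rw [norm_mul]
    refine mul_le_mul (hε m) ?_ (norm_nonneg _) hε0
    rw [norm_prod]
    have h2 : ∏ i ∈ m.support, ‖w i ^ m i‖ ≤ ∏ i ∈ m.support, ‖w‖ ^ m i := by
      refine Finset.prod_le_prod (fun _ _ => norm_nonneg _) fun i _ => ?_
      rw [norm_pow]
      exact pow_le_pow_left₀ (norm_nonneg _) (norm_le_pi_norm w i) _
    refine h2.trans ?_
    rw [Finset.prod_pow_eq_pow_sum]
    exact pow_le_pow_of_le_one (norm_nonneg _) hw (hq m hm)
  refine (Finset.sum_le_sum h1).trans ?_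
  rw [Finset.sum_const, nsmul_eq_mul, mul_assoc]
  refine mul_le_mul_of_nonneg_right ?_ (by positivity)
  exact_mod_cast Finset.card_le_card hΛ

/-- approximate solutions of the equations are approximated by elements of `B` -/
theorem approx_bound {k L s : ℕ} (φ : Fin k → B →ₗ[MvPolynomial (Fin n) ℂ] MvPolynomial (Fin n) ℂ)
    (hφ : Submodule.span (MvPolynomial (Fin n) ℂ) (Set.range φ) = ⊤) (e : Fin s → B)
    (he : Submodule.span (MvPolynomial (Fin n) ℂ) (Set.range e) = ⊤)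
    (A : Fin L → Fin k → MvPolynomial (Fin n) ℂ)
    (hA : ∀ a : Fin k → MvPolynomial (Fin n) ℂ, ∑ j, a j • φ j = 0 →
      a ∈ Submodule.span (MvPolynomial (Fin n) ℂ) (Set.range A)) :
    ∃ c : ℕ, ∀ M, ∃ (C : ℝ) (Λ : Finset (Fin n →₀ ℕ)), 0 ≤ C ∧
      ∀ (p : Fin k → MvPolynomial (Fin n) ℂ) (ε : ℝ), 0 ≤ ε → (∀ j, (p j).totalDegree < M + c) →
      (∀ j m, ‖coeff m (p j)‖ ≤ ε) →
      (∀ l, ∑ j, A l j * p j ∈ idealOfVars (Fin n) ℂ ^ (M + c)) →
      ∃ b : Fin s → MvPolynomial (Fin n) ℂ, (∀ i, (b i).support ⊆ Λ) ∧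
        (∀ i m, ‖coeff m (b i)‖ ≤ C * ε) ∧ ∀ j (w : Fin n → ℂ), ‖w‖ ≤ 1 →
          ‖eval w (φ j (∑ i, b i • e i)) - eval w (p j)‖ ≤ C * ε * ‖w‖ ^ M := by
  classical
  obtain ⟨c, hc⟩ := approx_linear φ hφ e he A hA
  refine ⟨c, fun M => ?_⟩
  obtain ⟨σ, hσ⟩ := hc M
  have h1 : ∀ i, ∃ (C : ℝ) (Λ : Finset (Fin n →₀ ℕ)), 0 ≤ C ∧
      ∀ (p : Fin k → MvPolynomial (Fin n) ℂ) (ε : ℝ), 0 ≤ ε → (∀ j, (p j).totalDegree < M + c) →
      (∀ j m, ‖coeff m (p j)‖ ≤ ε) → (σ p i).support ⊆ Λ ∧ ∀ m, ‖coeff m (σ p i)‖ ≤ C * ε :=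
    fun i => approx_lin_bound (M + c) ((LinearMap.proj i).comp σ)
  choose C₁ Λ₁ hC₁ h1 using h1
  have h2 : ∀ j, ∃ (C : ℝ) (Λ : Finset (Fin n →₀ ℕ)), 0 ≤ C ∧
      ∀ (p : Fin k → MvPolynomial (Fin n) ℂ) (ε : ℝ), 0 ≤ ε → (∀ j, (p j).totalDegree < M + c) →
      (∀ j m, ‖coeff m (p j)‖ ≤ ε) → (φ j (∑ i, σ p i • e i) - p j).support ⊆ Λ ∧
        ∀ m, ‖coeff m (φ j (∑ i, σ p i • e i) - p j)‖ ≤ C * ε := by
    intro j
    let τ : (Fin k → MvPolynomial (Fin n) ℂ) →ₗ[ℂ] MvPolynomial (Fin n) ℂ :=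
      { toFun := fun p => φ j (∑ i, σ p i • e i) - p j
        map_add' := by
          intro p q
          simp only [map_add, Pi.add_apply, add_smul, Finset.sum_add_distrib]
          ring
        map_smul' := by
          intro a p
          have h3 : ∑ i, σ (a • p) i • e i = (C a : MvPolynomial (Fin n) ℂ) • ∑ i, σ p i • e i := by
            rw [Finset.smul_sum]
            refine Finset.sum_congr rfl fun i _ => ?_
            rw [map_smul, Pi.smul_apply, smul_eq_C_mul, mul_smul]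
          rw [h3, map_smul, Pi.smul_apply, smul_eq_C_mul, smul_eq_mul, RingHom.id_apply,
            smul_eq_C_mul]
          ring }
    exact approx_lin_bound (M + c) τ
  choose C₂ Λ₂ hC₂ h2 using h2
  have hs1 : 0 ≤ ∑ i, C₁ i := Finset.sum_nonneg fun i _ => hC₁ i
  have hs2 : 0 ≤ ∑ j, (Λ₂ j).card * C₂ j :=
    Finset.sum_nonneg fun j _ => mul_nonneg (Nat.cast_nonneg _) (hC₂ j)
  refine ⟨∑ i, C₁ i + ∑ j, (Λ₂ j).card * C₂ j, Finset.univ.biUnion Λ₁, add_nonneg hs1 hs2, ?_⟩
  intro p ε hε hT hp hA'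
  refine ⟨σ p, fun i => ?_, fun i m => ?_, fun j w hw => ?_⟩
  · exact (h1 i p ε hε hT hp).1.trans
      (Finset.subset_biUnion_of_mem Λ₁ (Finset.mem_univ i))
  · refine ((h1 i p ε hε hT hp).2 m).trans ?_
    refine mul_le_mul_of_nonneg_right ?_ hε
    have h3 := Finset.single_le_sum (f := C₁) (fun i _ => hC₁ i) (Finset.mem_univ i)
    linarith
  · have h3 := h2 j p ε hε hT hp
    have h4 := approx_eval_le (hσ p hA' j) h3.1 h3.2 hw
    rw [map_sub] at h4
    refine h4.trans ?_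
    refine mul_le_mul_of_nonneg_right ?_ (by positivity)
    rw [← mul_assoc]
    refine mul_le_mul_of_nonneg_right ?_ hε
    have h5 := Finset.single_le_sum (f := fun j => ((Λ₂ j).card : ℝ) * C₂ j)
      (fun j _ => mul_nonneg (Nat.cast_nonneg _) (hC₂ j)) (Finset.mem_univ j)
    linarith

end approx

end Pool.Agent.Odp2
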