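import Mathlib

/-!
# A normal domain which is finite over a noetherian domain is the double dual of itself
-/

open scoped nonZeroDivisors

namespace Pool.Agent.Odp2

section refl

variable {P B : Type*} [CommRing P] [IsDomain P] [CommRing B] [IsDomain B] [Algebra P B]
  [FaithfulSMul P B] [Module.Finite P B]

/-- a finite domain over `P` has dual coordinates up to a denominator -/
theorem refl_exists_dual : ∃ (s : ℕ) (e : Fin s → B) (D : P) (cf : Fin s → B →ₗ[P] P),
    D ≠ 0 ∧ ∀ b, D • b = ∑ i, cf i b • e i := by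
  classical
  let F := FractionRing P
  let K := FractionRing B
  have hABK : IsScalarTower P B K := inferInstance
  have hinj : FaithfulSMul P K := by
    rw [faithfulSMul_iff_algebraMap_injective, IsScalarTower.algebraMap_eq P B K]
    exact (IsFractionRing.injective B K).comp (FaithfulSMul.algebraMap_injective P B)
  let : Algebra F K := FractionRing.liftAlgebra P K
  have hAFK : IsScalarTower P F K := FractionRing.isScalarTower_liftAlgebra _ _
  have hloc : IsLocalization (Algebra.algebraMapSubmonoid B P⁰) K := inferInstance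
  have hfd : FiniteDimensional F K := Module.Finite.of_isLocalization P B P⁰
  have hPF : Function.Injective (algebraMap P F) := IsFractionRing.injective P F
  have hBK : Function.Injective (algebraMap B K) := IsFractionRing.injective B K
  -- a basis of `K` over `F`
  let v := Module.finBasis F K
  -- common denominator of the basis
  obtain ⟨q, hq⟩ := IsLocalization.exist_integer_multiples_of_finite
    (Algebra.algebraMapSubmonoid B P⁰) (fun i => v i)
  obtain ⟨p, hp, hpq⟩ := q.2
  have he : ∀ i, ∃ b : B, algebraMap B K b = algebraMap P K p * v i := by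
    intro i
    obtain ⟨b, hb⟩ := hq i
    refine ⟨b, ?_⟩
    rw [hb, Algebra.smul_def, ← hpq, ← IsScalarTower.algebraMap_apply]
  choose e he using he
  have hp0 : p ≠ 0 := nonZeroDivisors.ne_zero hp
  -- generators of `B`
  obtain ⟨G, hG⟩ := (Module.Finite.fg_top : (⊤ : Submodule P B).FG)
  obtain ⟨D, hD⟩ := IsLocalization.exist_integer_multiples P⁰ (G ×ˢ Finset.univ)
    (fun x : B × Fin (Module.finrank F K) => v.repr (algebraMap B K x.1) x.2)
  have hD0 : (D : P) ≠ 0 := nonZeroDivisors.ne_zero D.2
  let ι : P →ₗ[P] F := Algebra.linearMap P F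
  let R : Submodule P F := LinearMap.range ι
  have hι : Function.Injective ι := hPF
  let cK : Fin (Module.finrank F K) → B →ₗ[P] F := fun i =>
    (D : P) • ((((v.coord i).restrictScalars P)).comp
      (IsScalarTower.toAlgHom P B K).toLinearMap)
  have hcK : ∀ i b, cK i b ∈ R := by
    intro i b
    have hb : b ∈ Submodule.span P (G : Set B) := by rw [hG]; trivial
    induction hb using Submodule.span_induction with
    | mem x hx =>
      obtain ⟨a, ha⟩ := hD (x, i) (by simpa using hx)
      exact ⟨a, by simpa [cK, ι] using ha⟩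
    | zero => rw [map_zero]; exact zero_mem _
    | add x y _ _ hx hy => rw [map_add]; exact add_mem hx hy
    | smul a x _ hx => rw [map_smul]; exact Submodule.smul_mem _ _ hx
  let cf : Fin (Module.finrank F K) → B →ₗ[P] P := fun i =>
    ((LinearEquiv.ofInjective ι hι).symm.toLinearMap).comp ((cK i).codRestrict R (hcK i))
  have hcf : ∀ i b, algebraMap P F (cf i b) = cK i b := by
    intro i b
    have h1 : ι ((LinearEquiv.ofInjective ι hι).symm ((cK i).codRestrict R (hcK i) b)) =
        (((cK i).codRestrict R (hcK i) b : R) : F) := by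
      have h2 := (LinearEquiv.ofInjective ι hι).apply_symm_apply
        ((cK i).codRestrict R (hcK i) b)
      have h3 := congrArg Subtype.val h2
      exact h3
    exact h1
  refine ⟨_, e, D * p, cf, mul_ne_zero hD0 hp0, fun b => ?_⟩
  apply hBK
  rw [Algebra.smul_def, map_mul, ← IsScalarTower.algebraMap_apply, map_sum]
  have h1 : ∀ i, algebraMap B K (cf i b • e i) =
      algebraMap P K p * (algebraMap F K (cK i b) * v i) := by
    intro i
    rw [Algebra.smul_def, map_mul, he, ← IsScalarTower.algebraMap_apply,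
      IsScalarTower.algebraMap_apply P F K, hcf]
    ring
  rw [Finset.sum_congr rfl fun i _ => h1 i, ← Finset.mul_sum]
  have h2 : ∑ i, algebraMap F K (cK i b) * v i = algebraMap P K D * algebraMap B K b := by
    have h3 : ∀ i, algebraMap F K (cK i b) * v i =
        algebraMap P K D * (v.repr (algebraMap B K b) i • v i) := by
      intro i
      have h4 : cK i b = algebraMap P F D * v.repr (algebraMap B K b) i := by
        simp [cK, Algebra.smul_def]
      rw [h4, map_mul, ← IsScalarTower.algebraMap_apply, Algebra.smul_def, mul_assoc]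
    rw [Finset.sum_congr rfl fun i _ => h3 i, ← Finset.mul_sum, v.sum_repr]
  rw [h2, map_mul]
  ring

/-- a noetherian normal domain is completely integrally closed -/
theorem refl_dvd_of_pow [IsNoetherianRing B] [IsIntegrallyClosed B] {c b D : B} (hc : c ≠ 0)
    (hD : D ≠ 0) (h : ∀ m, D ^ m ∣ c * b ^ m) : D ∣ b := by
  let K := FractionRing B
  have hBK : Function.Injective (algebraMap B K) := IsFractionRing.injective B K
  have hDK : algebraMap B K D ≠ 0 := by
    rwa [Ne, map_eq_zero_iff _ hBK]
  have h1 : IsAlmostIntegral B (algebraMap B K b / algebraMap B K D) := by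
    refine ⟨c, by simpa using hc, fun m => ?_⟩
    obtain ⟨z, hz⟩ := h m
    refine ⟨z, ?_⟩
    rw [Algebra.smul_def, div_pow, mul_div_assoc', eq_div_iff (pow_ne_zero _ hDK), ← map_pow,
      ← map_pow, ← map_mul, ← map_mul, hz, mul_comm]
  obtain ⟨z, hz⟩ := IsIntegrallyClosed.isIntegral_iff.mp h1.isIntegral
  refine ⟨z, hBK ?_⟩
  rw [map_mul, hz, mul_div_cancel₀ _ hDK]

/-- a normal domain which is finite over `P` is the double dual of itself -/
theorem refl_exists_of_functional [IsNoetherianRing P] [IsIntegrallyClosed B]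
    (lam : (B →ₗ[P] P) →ₗ[P] P) : ∃ b, ∀ φ, φ b = lam φ := by
  classical
  have hnoe : IsNoetherianRing B := IsNoetherianRing.of_finite P B
  obtain ⟨s, e, D, cf, hD, hcf⟩ := refl_exists_dual (P := P) (B := B)
  set b0 : B := ∑ i, lam (cf i) • e i with hb0
  have h1 : ∀ φ : B →ₗ[P] P, φ b0 = D * lam φ := by
    intro φ
    have h2 : D • φ = ∑ i, φ (e i) • cf i := by
      ext b
      rw [LinearMap.smul_apply, ← map_smul, hcf, map_sum, LinearMap.sum_apply]
      refine Finset.sum_congr rfl fun i _ => ?_
      rw [map_smul, LinearMap.smul_apply, smul_eq_mul, smul_eq_mul, mul_comm]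
    have h3 : lam (D • φ) = D * lam φ := by rw [map_smul, smul_eq_mul]
    rw [← h3, h2, hb0, map_sum, map_sum]
    refine Finset.sum_congr rfl fun i _ => ?_
    rw [map_smul, map_smul, smul_eq_mul, smul_eq_mul, mul_comm]
  -- the operator `T`
  let mulφ : (B →ₗ[P] P) → B →ₗ[P] (B →ₗ[P] P) := fun φ =>
    LinearMap.mk₂ P (fun b c => φ (b * c)) (fun a b c => by rw [add_mul, map_add])
      (fun r a b => by rw [smul_mul_assoc, map_smul]) (fun a b c => by rw [mul_add, map_add])
      (fun r a b => by rw [mul_smul_comm, map_smul])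
  let T : (B →ₗ[P] P) → (B →ₗ[P] P) := fun φ => lam.comp (mulφ φ)
  have hT : ∀ φ b, φ (b0 * b) = D * T φ b := by
    intro φ b
    have h2 := h1 (mulφ φ b)
    have h3 : mulφ φ b b0 = φ (b0 * b) := by
      change φ (b * b0) = _
      rw [mul_comm]
    rw [← h3, h2]
    rfl
  have hTm : ∀ m φ b, φ (b0 ^ m * b) = D ^ m * (T^[m]) φ b := by
    intro m
    induction m with
    | zero => intro φ b; simp
    | succ m ih =>
      intro φ b
      rw [pow_succ', mul_assoc, hT, ih, Function.iterate_succ_apply, pow_succ']
      ring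
  have hDB : algebraMap P B D ≠ 0 := by
    rwa [Ne, map_eq_zero_iff _ (FaithfulSMul.algebraMap_injective P B)]
  have h4 : algebraMap P B D ∣ b0 := by
    refine refl_dvd_of_pow hDB hDB fun m => ?_
    refine ⟨∑ i, (T^[m]) (cf i) 1 • e i, ?_⟩
    have h5 := hcf (b0 ^ m)
    rw [Algebra.smul_def] at h5
    rw [h5, Finset.mul_sum]
    refine Finset.sum_congr rfl fun i _ => ?_
    have h6 := hTm m (cf i) 1
    rw [mul_one] at h6
    rw [h6, ← map_pow, ← Algebra.smul_def, mul_smul]
  obtain ⟨b, hb⟩ := h4
  refine ⟨b, fun φ => ?_⟩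
  have h7 := h1 φ
  rw [hb, ← Algebra.smul_def, map_smul, smul_eq_mul] at h7
  exact mul_left_cancel₀ hD h7

/-- the same with generators of the dual and their syzygies -/
theorem refl_exists_of_syzygy [IsNoetherianRing P] [IsIntegrallyClosed B] {k : ℕ}
    (φ : Fin k → B →ₗ[P] P) (hφ : Submodule.span P (Set.range φ) = ⊤) (g : Fin k → P)
    (hg : ∀ a : Fin k → P, ∑ j, a j • φ j = 0 → ∑ j, a j * g j = 0) :
    ∃ b, ∀ j, φ j b = g j := by
  classical
  let L : (Fin k → P) →ₗ[P] (B →ₗ[P] P) := Fintype.linearCombination P φ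
  have hL : ∀ a, L a = ∑ j, a j • φ j := fun a => rfl
  have hLs : LinearMap.range L = ⊤ := by
    rw [← hφ]
    exact Fintype.range_linearCombination P φ
  let Γ : (Fin k → P) →ₗ[P] P := Fintype.linearCombination P g
  have hΓ : ∀ a, Γ a = ∑ j, a j * g j := fun a => rfl
  have hker : LinearMap.ker L ≤ LinearMap.ker Γ := by
    intro a ha
    rw [LinearMap.mem_ker, hL] at ha
    rw [LinearMap.mem_ker, hΓ]
    exact hg a ha
  let lam : (B →ₗ[P] P) →ₗ[P] P :=
    ((LinearMap.ker L).liftQ Γ hker).comp
      (L.quotKerEquivOfSurjective (LinearMap.range_eq_top.mp hLs)).symm.toLinearMap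
  have hlam : ∀ a, lam (L a) = Γ a := by
    intro a
    have h1 : (L.quotKerEquivOfSurjective (LinearMap.range_eq_top.mp hLs)).symm (L a) =
        (LinearMap.ker L).mkQ a := by
      rw [LinearEquiv.symm_apply_eq]
      rfl
    change ((LinearMap.ker L).liftQ Γ hker)
      ((L.quotKerEquivOfSurjective (LinearMap.range_eq_top.mp hLs)).symm (L a)) = _
    rw [h1]
    rfl
  obtain ⟨b, hb⟩ := refl_exists_of_functional lam
  refine ⟨b, fun j => ?_⟩
  have h2 : φ j = L (Pi.single j 1) := by
    rw [hL]
    simp [Pi.single_apply]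
  rw [hb, h2, hlam, hΓ]
  simp [Pi.single_apply]

end refl

end Pool.Agent.Odp2
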